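import Pool.Agent.R114.SIC.RealNear

/-!
# Bipartite systems of lines, and imaginary systems with `d + 2` lines
-/

set_option autoImplicit false

namespace Pool.Agent.U208.SIC

open Finset Matrix Pool.Agent.H109R2.SIC Pool.Agent.R114.SIC

variable {d : ℕ} {x : Fin (d ^ 2) → EuclideanSpace ℂ (Fin d)}

/-- the image of `c` under the Hadamard matrix `(d+1) (⟨x_i, x_j⟩²) - d` -/
noncomputable def hb (x : Fin (d ^ 2) → EuclideanSpace ℂ (Fin d)) (c : Fin (d ^ 2) → ℂ)
    (k : Fin (d ^ 2)) : ℂ := ((d : ℂ) + 1) * yb x c k - d * c k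

theorem sum_star_yb (b c : Fin (d ^ 2) → ℂ) : ∑ k, star (b k) * yb x c k = qf x b c := by
  unfold yb qf
  refine Finset.sum_congr rfl fun i _ => ?_
  rw [Finset.mul_sum]
  refine Finset.sum_congr rfl fun j _ => ?_
  ring

theorem sum_yb_star (b c : Fin (d ^ 2) → ℂ) : ∑ k, star (yb x b k) * c k = qf x b c := by
  unfold yb qf
  have : ∀ k, star (∑ j, b j * (inner ℂ (x k) (x j)) ^ 2) * c k =
      ∑ j, star (b j) * c k * (inner ℂ (x j) (x k)) ^ 2 := by
    intro k
    rw [star_sum, Finset.sum_mul]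
    refine Finset.sum_congr rfl fun j _ => ?_
    rw [star_mul', star_pow, star_inner]
    ring
  simp only [this]
  rw [Finset.sum_comm]

/-- the matrix is `d` times a unitary matrix -/
theorem sum_hb (hx : IsMaxETF d x) (c : Fin (d ^ 2) → ℂ) :
    ∑ k, star (hb x c k) * hb x c k = (d : ℂ) ^ 2 * ∑ k, star (c k) * c k := by
  have h1 : ∀ k, star (hb x c k) * hb x c k =
      ((d : ℂ) + 1) ^ 2 * (star (yb x c k) * yb x c k)
      - ((d : ℂ) + 1) * d * (star (yb x c k) * c k)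
      - ((d : ℂ) + 1) * d * (star (c k) * yb x c k) + (d : ℂ) ^ 2 * (star (c k) * c k) := by
    intro k
    unfold hb
    rw [star_sub, star_mul', star_mul']
    have e1 : star ((d : ℂ) + 1) = (d : ℂ) + 1 := by simp
    have e2 : star (d : ℂ) = d := by simp
    rw [e1, e2]
    ring
  simp only [h1, Finset.sum_add_distrib, Finset.sum_sub_distrib, ← Finset.mul_sum]
  rw [sum_yb hx, sum_star_yb, sum_yb_star]
  have := d1_ne (d := d)
  field_simp
  ring

theorem sum_star_hb (b c : Fin (d ^ 2) → ℂ) :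
    ∑ k, star (b k) * hb x c k = ((d : ℂ) + 1) * qf x b c - d * ∑ k, star (b k) * c k := by
  have h1 : ∀ k, star (b k) * hb x c k =
      ((d : ℂ) + 1) * (star (b k) * yb x c k) - d * (star (b k) * c k) := by
    intro k; unfold hb; ring
  simp only [h1, Finset.sum_sub_distrib, ← Finset.mul_sum]
  rw [sum_star_yb]

/-- **The discrepancy of the squares of the inner products.** -/
theorem discrepancy (hx : IsMaxETF d x) (b c : Fin (d ^ 2) → ℂ)
    (hbc : ∑ k, star (b k) * c k = 0) :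
    (((d : ℝ) + 1) * ‖qf x b c‖) ^ 2 ≤ (d : ℝ) ^ 2 * ((∑ k, ‖b k‖ ^ 2) * ∑ k, ‖c k‖ ^ 2) := by
  have h1 := sum_star_hb (x := x) b c
  rw [hbc, mul_zero, sub_zero] at h1
  have e2 : ∑ k, ‖hb x c k‖ ^ 2 = (d : ℝ) ^ 2 * ∑ k, ‖c k‖ ^ 2 := by
    have h2 := sum_hb hx c
    rw [norm_sum_eq, norm_sum_eq] at h2
    exact_mod_cast h2
  have e3 : ((d : ℝ) + 1) * ‖qf x b c‖ ≤ ∑ k, ‖b k‖ * ‖hb x c k‖ := by
    have : ((d : ℝ) + 1) * ‖qf x b c‖ = ‖∑ k, star (b k) * hb x c k‖ := by
      rw [h1, norm_mul]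
      have : ‖(d : ℂ) + 1‖ = (d : ℝ) + 1 := by
        have : ((d : ℂ) + 1) = (((d : ℝ) + 1 : ℝ) : ℂ) := by push_cast; rfl
        rw [this, Complex.norm_real, Real.norm_of_nonneg (by positivity)]
      rw [this]
    rw [this]
    refine (norm_sum_le _ _).trans (le_of_eq ?_)
    refine Finset.sum_congr rfl fun k _ => ?_
    rw [norm_mul, norm_star]
  have e4 := Finset.sum_mul_sq_le_sq_mul_sq Finset.univ (fun k => ‖b k‖) (fun k => ‖hb x c k‖)
  rw [e2] at e4
  calc (((d : ℝ) + 1) * ‖qf x b c‖) ^ 2 ≤ (∑ k, ‖b k‖ * ‖hb x c k‖) ^ 2 :=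
        pow_le_pow_left₀ (by positivity) e3 2
    _ ≤ _ := e4
    _ = _ := by ring

/-- the bipartite form -/
theorem bip_discrepancy (hx : IsMaxETF d x) {S T : Finset (Fin (d ^ 2))} (hST : Disjoint S T)
    {c c' : Fin (d ^ 2) → ℂ} (hc : ∀ i ∈ S, ‖c i‖ = 1) (hc' : ∀ i ∈ T, ‖c' i‖ = 1) :
    (((d : ℝ) + 1) * ‖∑ i ∈ S, ∑ j ∈ T, (inner ℂ (c i • x i) (c' j • x j) : ℂ) ^ 2‖) ^ 2 ≤
      (d : ℝ) ^ 2 * ((S.card : ℝ) * T.card) := by
  have h := discrepancy hx (bc S c) (bc T c') (cross_bc hST c c')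
  rw [qf_bc, bc_norm S c hc, bc_norm T c' hc'] at h
  exact h

/-- nearly real (or nearly imaginary) bipartite systems -/
theorem bip_near (hx : IsMaxETF d x) {S T : Finset (Fin (d ^ 2))} (hST : Disjoint S T)
    {c c' : Fin (d ^ 2) → ℂ} (hc : ∀ i ∈ S, ‖c i‖ = 1) (hc' : ∀ i ∈ T, ‖c' i‖ = 1)
    (δ : ℝ) (hδ : 0 ≤ δ) (h : ∀ i ∈ S, ∀ j ∈ T,
      δ ≤ ((d : ℝ) + 1) * ((inner ℂ (c i • x i) (c' j • x j) : ℂ) ^ 2).re) :
    δ ^ 2 * ((S.card : ℝ) * T.card) ≤ (d : ℝ) ^ 2 := by
  have h1 := bip_discrepancy hx hST hc hc'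
  have h2 : δ * ((S.card : ℝ) * T.card) ≤
      ((d : ℝ) + 1) * ‖∑ i ∈ S, ∑ j ∈ T, (inner ℂ (c i • x i) (c' j • x j) : ℂ) ^ 2‖ := by
    have h3 : δ * ((S.card : ℝ) * T.card) ≤ ((d : ℝ) + 1) *
        (∑ i ∈ S, ∑ j ∈ T, (inner ℂ (c i • x i) (c' j • x j) : ℂ) ^ 2).re := by
      rw [Complex.re_sum, Finset.mul_sum]
      have h4 : ∀ i ∈ S, δ * T.card ≤ ((d : ℝ) + 1) *
          (∑ j ∈ T, (inner ℂ (c i • x i) (c' j • x j) : ℂ) ^ 2).re := by
        intro i hi
        rw [Complex.re_sum, Finset.mul_sum]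
        have := Finset.sum_le_sum (h i hi)
        rw [Finset.sum_const, nsmul_eq_mul, mul_comm] at this
        exact this
      have := Finset.sum_le_sum h4
      rw [Finset.sum_const, nsmul_eq_mul] at this
      calc δ * ((S.card : ℝ) * T.card) = (S.card : ℝ) * (δ * T.card) := by ring
        _ ≤ _ := this
    exact h3.trans (mul_le_mul_of_nonneg_left (Complex.re_le_norm _) (by positivity))
  have h0 : 0 ≤ (S.card : ℝ) * T.card := by positivity
  rcases h0.eq_or_lt with h5 | h5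
  · rw [← h5, mul_zero]; positivity
  · have h6 : (δ * ((S.card : ℝ) * T.card)) ^ 2 ≤ (d : ℝ) ^ 2 * ((S.card : ℝ) * T.card) :=
      (pow_le_pow_left₀ (by positivity) h2 2).trans h1
    have h7 : (δ ^ 2 * ((S.card : ℝ) * T.card)) * ((S.card : ℝ) * T.card) ≤
        (d : ℝ) ^ 2 * ((S.card : ℝ) * T.card) := by
      calc (δ ^ 2 * ((S.card : ℝ) * T.card)) * ((S.card : ℝ) * T.card)
          = (δ * ((S.card : ℝ) * T.card)) ^ 2 := by ring
        _ ≤ _ := h6
    exact le_of_mul_le_mul_right h7 h5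

/-- the quadruple product along the closed path `i, j, k, l` -/
noncomputable def qp (x : Fin (d ^ 2) → EuclideanSpace ℂ (Fin d)) (i j k l : Fin (d ^ 2)) : ℂ :=
  inner ℂ (x i) (x j) * inner ℂ (x j) (x k) * inner ℂ (x k) (x l) * inner ℂ (x l) (x i)

/-- phases for a bipartite real system -/
theorem bip_phases (hx : IsMaxETF d x) {S T : Finset (Fin (d ^ 2))} (hST : Disjoint S T)
    (h : ∀ i ∈ S, ∀ j ∈ T, ∀ k ∈ S, ∀ l ∈ T, (qp x i j k l).im = 0) :
    ∃ c c' : Fin (d ^ 2) → ℂ, (∀ i ∈ S, ‖c i‖ = 1) ∧ (∀ i ∈ T, ‖c' i‖ = 1) ∧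
      ∀ i ∈ S, ∀ j ∈ T, (inner ℂ (c i • x i) (c' j • x j) : ℂ).im = 0 := by
  rcases S.eq_empty_or_nonempty with rfl | ⟨o, ho⟩
  · exact ⟨fun _ => 1, fun _ => 1, by simp, by simp, by simp⟩
  rcases T.eq_empty_or_nonempty with rfl | ⟨p, hp⟩
  · exact ⟨fun _ => 1, fun _ => 1, by simp, by simp, by simp⟩
  set s : ℝ := Real.sqrt ((d : ℝ) + 1) with hs
  have hspos : 0 < s := Real.sqrt_pos.mpr (by positivity)
  have hne : ∀ i ∈ S, ∀ j ∈ T, i ≠ j := fun i hi j hj hij =>
    Finset.disjoint_left.mp hST hi (hij ▸ hj)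
  have hn : ∀ i j : Fin (d ^ 2), i ≠ j → ‖(s : ℂ) * inner ℂ (x i) (x j)‖ = 1 := by
    intro i j hij
    rw [norm_mul, Complex.norm_real, Real.norm_of_nonneg hspos.le, hx.2 i j hij]
    exact mul_one_div_cancel hspos.ne'
  -- `c' j` makes `⟨x_o, c' j x_j⟩` positive, `c i` makes `⟨c i x_i, c' p x_p⟩` positive
  refine ⟨fun i => ((s : ℂ) * inner ℂ (x i) (x p)) * ((s : ℂ) * inner ℂ (x p) (x o)),
    fun j => (s : ℂ) * inner ℂ (x j) (x o), ?_, ?_, ?_⟩
  · intro i hi
    rw [norm_mul, hn i p (hne i hi p hp), hn p o (hne o ho p hp).symm, one_mul]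
  · intro j hj
    exact hn j o (hne o ho j hj).symm
  · intro i hi j hj
    have e : (inner ℂ ((((s : ℂ) * inner ℂ (x i) (x p)) * ((s : ℂ) * inner ℂ (x p) (x o))) • x i)
        (((s : ℂ) * inner ℂ (x j) (x o)) • x j) : ℂ) = ((s ^ 3 : ℝ) : ℂ) * qp x i j o p := by
      rw [inner_smul_smul, star_mul', star_mul', star_mul', star_inner, star_inner]
      have : star (s : ℂ) = s := by simp
      rw [this]
      unfold qp
      push_cast
      ring
    rw [e, Complex.im_ofReal_mul, h i hi j hj o ho p hp, mul_zero]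

/-- **Bipartite real systems.** -/
theorem bip_card_le (hx : IsMaxETF d x) {S T : Finset (Fin (d ^ 2))} (hST : Disjoint S T)
    (h : ∀ i ∈ S, ∀ j ∈ T, ∀ k ∈ S, ∀ l ∈ T, (qp x i j k l).im = 0) :
    S.card * T.card ≤ d ^ 2 := by
  obtain ⟨c, c', hc, hc', hcc⟩ := bip_phases hx hST h
  have hne : ∀ i ∈ S, ∀ j ∈ T, i ≠ j := fun i hi j hj hij =>
    Finset.disjoint_left.mp hST hi (hij ▸ hj)
  have h1 := bip_near hx hST hc hc' 1 zero_le_one (fun i hi j hj => by
    have h2 : ‖(inner ℂ (c i • x i) (c' j • x j) : ℂ)‖ ^ 2 = 1 / ((d : ℝ) + 1) := by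
      rw [inner_smul_smul, norm_mul, norm_mul, norm_star, hc i hi, hc' j hj,
        hx.2 i j (hne i hi j hj), one_mul, one_mul, div_pow, one_pow,
        Real.sq_sqrt (by positivity)]
    rw [Complex.sq_norm, Complex.normSq_apply, hcc i hi j hj, mul_zero, add_zero] at h2
    rw [sq, Complex.mul_re, hcc i hi j hj, mul_zero, sub_zero, h2]
    have : (0 : ℝ) < (d : ℝ) + 1 := by positivity
    field_simp
    exact le_refl _)
  rw [one_pow, one_mul] at h1
  exact_mod_cast h1

/-- the lines of an imaginary system with `d + 2` members -/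
theorem imag_tight (hx : IsMaxETF d x) {S : Finset (Fin (d ^ 2))} (hI : ImagSys x S)
    (hS : S.card = d + 2) {i l : Fin (d ^ 2)} (hi : i ∈ S) (hl : l ∈ S) :
    ∑ j ∈ S, (inner ℂ (x i) (x j) * inner ℂ (x j) (x l) : ℂ) = 2 * inner ℂ (x i) (x l) := by
  obtain ⟨c, hc⟩ := (imagSys_iff hx S).mp hI
  have hv := imag_vanish hx hc hS (c i • x i) (c l • x l)
  -- the relation for the scaled vectors
  have h1 : ∑ j ∈ S, (inner ℂ (c i • x i) (c j • x j) * inner ℂ (c j • x j) (c l • x l) : ℂ) =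
      2 * inner ℂ (c i • x i) (c l • x l) := by
    have h2 : ∀ j ∈ S, (inner ℂ (c i • x i) (c j • x j) * inner ℂ (c j • x j) (c l • x l) : ℂ) =
        -(inner ℂ (c i • x i) (c j • x j) * inner ℂ (c l • x l) (c j • x j)) +
          if j = l then 2 * inner ℂ (c i • x i) (c l • x l) else 0 := by
      intro j hj
      split_ifs with hjl
      · subst hjl
        rw [scaled_self hx (hc.1 j hj)]
        ring
      · have h3 := hc.2 l hl j hj (Ne.symm hjl)
        have h4 : (inner ℂ (c j • x j) (c l • x l) : ℂ) = -inner ℂ (c l • x l) (c j • x j) := by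
          rw [← star_inner (c l • x l) (c j • x j)]
          generalize (inner ℂ (c l • x l) (c j • x j) : ℂ) = w at h3 ⊢
          apply Complex.ext
          · simp only [RCLike.star_def, Complex.conj_re, Complex.neg_re]
            rw [h3]; norm_num
          · simp
        rw [h4]
        ring
    rw [Finset.sum_congr rfl h2, Finset.sum_add_distrib, Finset.sum_neg_distrib, hv,
      Finset.sum_ite_eq' S l, if_pos hl]
    ring
  have hcc : ∀ j ∈ S, c j * star (c j) = 1 := by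
    intro j hj
    have := Complex.mul_conj' (c j)
    change c j * (starRingEnd ℂ) (c j) = 1
    rw [this, hc.1 j hj]
    norm_num
  have h5 : ∑ j ∈ S, (inner ℂ (c i • x i) (c j • x j) * inner ℂ (c j • x j) (c l • x l) : ℂ) =
      star (c i) * c l * ∑ j ∈ S, (inner ℂ (x i) (x j) * inner ℂ (x j) (x l) : ℂ) := by
    rw [Finset.mul_sum]
    refine Finset.sum_congr rfl fun j hj => ?_
    rw [inner_smul_smul, inner_smul_smul]
    calc star (c i) * c j * inner ℂ (x i) (x j) * (star (c j) * c l * inner ℂ (x j) (x l))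
        = (c j * star (c j)) * (star (c i) * c l * (inner ℂ (x i) (x j) * inner ℂ (x j) (x l))) := by
          ring
      _ = _ := by rw [hcc j hj, one_mul]
  rw [h5, inner_smul_smul] at h1
  have hne : star (c i) * c l ≠ 0 := by
    have h6 := hcc i hi
    have h7 := hcc l hl
    intro h0
    rcases mul_eq_zero.mp h0 with h8 | h8
    · rw [h8, mul_zero] at h6; exact zero_ne_one h6
    · rw [h8, zero_mul] at h7; exact zero_ne_one h7
  apply mul_left_cancel₀ hne
  rw [h1]
  ring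

/-- they span a space of half the dimension -/
theorem imag_finrank (hx : IsMaxETF d x) {S : Finset (Fin (d ^ 2))} (hI : ImagSys x S)
    (hS : S.card = d + 2) :
    2 * Module.finrank ℂ (Submodule.span ℂ (x '' (S : Set (Fin (d ^ 2))))) = d + 2 := by
  set W := Submodule.span ℂ (x '' (S : Set (Fin (d ^ 2)))) with hW
  let F : EuclideanSpace ℂ (Fin d) →ₗ[ℂ] EuclideanSpace ℂ (Fin d) :=
    ∑ j ∈ S, (innerₛₗ ℂ (x j)).smulRight (x j)
  have hF : ∀ u, F u = ∑ j ∈ S, (inner ℂ (x j) u : ℂ) • x j := by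
    intro u
    simp only [F, LinearMap.sum_apply, LinearMap.smulRight_apply]
    rfl
  have hFW : ∀ u, F u ∈ W := by
    intro u
    rw [hF]
    exact Submodule.sum_mem _ fun j hj =>
      Submodule.smul_mem _ _ (Submodule.subset_span ⟨j, hj, rfl⟩)
  have hFl : ∀ l ∈ S, F (x l) = (2 : ℂ) • x l := by
    intro l hl
    have hmem : F (x l) - (2 : ℂ) • x l ∈ W :=
      W.sub_mem (hFW _) (W.smul_mem _ (Submodule.subset_span ⟨l, hl, rfl⟩))
    have horth : F (x l) - (2 : ℂ) • x l ∈ Wᗮ := by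
      rw [hW, Submodule.mem_orthogonal]
      intro u hu
      induction hu using Submodule.span_induction with
      | mem u hu =>
        obtain ⟨i, hi, rfl⟩ := hu
        rw [inner_sub_right, hF, inner_sum, inner_smul_right]
        have h1 := imag_tight hx hI hS (Finset.mem_coe.mp hi) hl
        have h2 : ∑ j ∈ S, (inner ℂ (x i) ((inner ℂ (x j) (x l) : ℂ) • x j) : ℂ) =
            ∑ j ∈ S, (inner ℂ (x i) (x j) * inner ℂ (x j) (x l) : ℂ) := by
          refine Finset.sum_congr rfl fun j _ => ?_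
          rw [inner_smul_right]; ring
        rw [h2, h1, sub_self]
      | zero => simp
      | add u v _ _ hu hv => rw [inner_add_left, hu, hv, add_zero]
      | smul a u _ hu => rw [inner_smul_left, hu, mul_zero]
    have h0 : F (x l) - (2 : ℂ) • x l = 0 := by
      have := Submodule.mem_inf.mpr ⟨hmem, horth⟩
      rw [Submodule.inf_orthogonal_eq_bot] at this
      exact (Submodule.mem_bot ℂ).mp this
    exact sub_eq_zero.mp h0
  have hFu : ∀ u ∈ W, F u = (2 : ℂ) • u := by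
    intro u hu
    rw [hW] at hu
    induction hu using Submodule.span_induction with
    | mem u hu =>
      obtain ⟨i, hi, rfl⟩ := hu
      exact hFl i (Finset.mem_coe.mp hi)
    | zero => simp
    | add u v _ _ hu hv => rw [map_add, hu, hv, smul_add]
    | smul a u _ hu => rw [map_smul, hu, smul_comm]
  have hproj : LinearMap.IsProj W ((2 : ℂ)⁻¹ • F) := by
    constructor
    · intro u
      exact W.smul_mem _ (hFW u)
    · intro u hu
      rw [LinearMap.smul_apply, hFu u hu, smul_smul, inv_mul_cancel₀ two_ne_zero, one_smul]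
  have htr := hproj.trace
  have htrF : LinearMap.trace ℂ _ F = ((S.card : ℕ) : ℂ) := by
    rw [LinearMap.trace_eq_sum_inner F (EuclideanSpace.basisFun (Fin d) ℂ)]
    have h1 : ∀ i, (inner ℂ ((EuclideanSpace.basisFun (Fin d) ℂ) i)
        (F ((EuclideanSpace.basisFun (Fin d) ℂ) i)) : ℂ) =
        ∑ j ∈ S, (inner ℂ ((EuclideanSpace.basisFun (Fin d) ℂ) i) (x j) *
          inner ℂ (x j) ((EuclideanSpace.basisFun (Fin d) ℂ) i) : ℂ) := by
      intro i
      rw [hF, inner_sum]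
      refine Finset.sum_congr rfl fun j _ => ?_
      rw [inner_smul_right]; ring
    simp only [h1]
    rw [Finset.sum_comm]
    have h2 : ∀ j, ∑ i, (inner ℂ ((EuclideanSpace.basisFun (Fin d) ℂ) i) (x j) *
          inner ℂ (x j) ((EuclideanSpace.basisFun (Fin d) ℂ) i) : ℂ) = 1 := by
      intro j
      have h3 := (EuclideanSpace.basisFun (Fin d) ℂ).sum_inner_mul_inner (x j) (x j)
      rw [inner_self_one hx] at h3
      rw [← h3]
      refine Finset.sum_congr rfl fun i _ => ?_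
      ring
    simp only [h2, Finset.sum_const, nsmul_eq_mul, mul_one]
  rw [map_smul, htrF, hS, smul_eq_mul] at htr
  have h4 : ((d + 2 : ℕ) : ℂ) = 2 * (Module.finrank ℂ W : ℂ) := by
    rw [← htr]
    field_simp
  have h5 : d + 2 = 2 * Module.finrank ℂ W := by exact_mod_cast h4
  exact h5.symm

/-- the other lines -/
theorem imag_others (hx : IsMaxETF d x) {S : Finset (Fin (d ^ 2))} {c : Fin (d ^ 2) → ℂ}
    (hc : ImagPhases x S c) (hS : S.card = d + 2) (u : EuclideanSpace ℂ (Fin d)) :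
    ∑ j ∈ S, (inner ℂ u (c j • x j) : ℂ) ^ 2 = 0 := by
  have := imag_vanish hx hc hS u u
  rw [← this]
  exact Finset.sum_congr rfl fun j _ => sq _

end Pool.Agent.U208.SIC
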