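import Mathlib

set_option autoImplicit false

/-!
# Unit complex numbers with given first and second moments in sectors
-/

namespace Pool.Agent.U208.SIC

open Finset

theorem sector {ι : Type*} (s : Finset ι) (f : ι → ℂ) (hf : ∀ k ∈ s, ‖f k‖ = 1) (ω : ℂ)
    (hω : ‖ω‖ = 1) (c : ℝ) (hc : c < 1) :
    (1 / 2 - c) * (s.card : ℝ) + (star ω ^ 2 * ∑ k ∈ s, f k ^ 2).re / 2 +
      (1 - c) * (star ω * ∑ k ∈ s, f k).re ≤
      2 * (1 - c) * ((s.filter fun k => c < (star ω * f k).re).card : ℝ) := by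
  have key : ∀ k ∈ s, (1 / 2 - c) + (star ω ^ 2 * f k ^ 2).re / 2 + (1 - c) * (star ω * f k).re ≤
      if c < (star ω * f k).re then 2 * (1 - c) else 0 := by
    intro k hk
    set z : ℂ := star ω * f k with hz
    have hz1 : ‖z‖ = 1 := by rw [hz, norm_mul, norm_star, hω, hf k hk, one_mul]
    have hz2 : z.re ^ 2 + z.im ^ 2 = 1 := by
      have h := Complex.sq_norm z
      rw [hz1, Complex.normSq_apply] at h
      nlinarith
    have hz3 : (star ω ^ 2 * f k ^ 2).re = 2 * z.re ^ 2 - 1 := by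
      rw [← mul_pow, ← hz, sq, Complex.mul_re]
      nlinarith
    have hz4 : z.re ≤ 1 := by nlinarith [sq_nonneg z.im]
    have hz5 : -1 ≤ z.re := by nlinarith [sq_nonneg z.im]
    rw [hz3]
    split_ifs with h
    · nlinarith [mul_nonneg (by linarith : (0 : ℝ) ≤ 1 - z.re) (by linarith : (0 : ℝ) ≤ 1 - c),
        mul_nonneg (by linarith : (0 : ℝ) ≤ 1 - z.re) (by linarith : (0 : ℝ) ≤ z.re - c)]
    · push Not at h
      nlinarith [mul_nonneg (by linarith : (0 : ℝ) ≤ 1 + z.re) (by linarith : (0 : ℝ) ≤ c - z.re)]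
  have h := Finset.sum_le_sum key
  rw [Finset.sum_add_distrib, Finset.sum_add_distrib, Finset.sum_const, nsmul_eq_mul,
    ← Finset.mul_sum, ← Finset.sum_div, ← Complex.re_sum, ← Complex.re_sum, ← Finset.mul_sum,
    ← Finset.mul_sum, ← Finset.sum_filter, Finset.sum_const, nsmul_eq_mul] at h
  linarith

theorem sum_im_sq {ι : Type*} (s : Finset ι) (f : ι → ℂ) (hf : ∀ k ∈ s, ‖f k‖ = 1) :
    ∑ k ∈ s, (f k).im ^ 2 = ((s.card : ℝ) - (∑ k ∈ s, f k ^ 2).re) / 2 := by
  have key : ∀ k ∈ s, (f k).im ^ 2 = 1 / 2 - (f k ^ 2).re / 2 := by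
    intro k hk
    have h := Complex.sq_norm (f k)
    rw [hf k hk, Complex.normSq_apply] at h
    rw [sq (f k), Complex.mul_re]
    nlinarith
  rw [Finset.sum_congr rfl key, Finset.sum_sub_distrib, Finset.sum_const, nsmul_eq_mul,
    ← Finset.sum_div, ← Complex.re_sum]
  ring

end Pool.Agent.U208.SIC
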